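import Mathlib

set_option autoImplicit false

namespace Pool.Agent.Results.MP_36ff06_lc.GrzEmbedding

/-! ### The logic `L1` -/

/-- Formulas of `L1`: atoms `eps a b` (for name variables `a b : ℕ`), negation, disjunction. -/
inductive LForm : Type
  | eps : ℕ → ℕ → LForm
  | neg : LForm → LForm
  | or : LForm → LForm → LForm

namespace LForm

/-- Implication `φ ⊃ ψ` abbreviates `¬φ ∨ ψ`. -/
def imp (φ ψ : LForm) : LForm := or (neg φ) ψ

/-- Conjunction `φ ∧ ψ` abbreviates `¬(¬φ ∨ ¬ψ)`. -/
def and (φ ψ : LForm) : LForm := neg (or (neg φ) (neg ψ))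

end LForm

/-- `e` is a Boolean truth assignment on `L1`-formulas: it commutes with `¬` and `∨`. -/
def LForm.IsAssignment (e : LForm → Prop) : Prop :=
  (∀ φ, e (.neg φ) ↔ ¬ e φ) ∧ (∀ φ ψ, e (.or φ ψ) ↔ (e φ ∨ e ψ))

/-- An `L1`-formula is (an instance of) a propositional tautology: it is true under
every Boolean truth assignment. -/
def LForm.Taut (φ : LForm) : Prop := ∀ e : LForm → Prop, LForm.IsAssignment e → e φ

/-- Provability in the Hilbert system `L1`. -/
inductive L1 : LForm → Prop
  | taut (φ : LForm) : φ.Taut → L1 φ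
  | ax1 (a b : ℕ) : L1 ((LForm.eps a b).imp (LForm.eps a a))
  | ax2 (a b c : ℕ) :
      L1 (((LForm.eps a b).and (LForm.eps b c)).imp (LForm.eps a c))
  | ax3 (a b c : ℕ) :
      L1 (((LForm.eps a b).and (LForm.eps b c)).imp (LForm.eps b a))
  | mp (φ ψ : LForm) : L1 (φ.imp ψ) → L1 φ → L1 ψ

/-! ### Modal formulas and Grzegorczyk's logic -/

/-- Modal formulas with propositional variables in `α`; primitives `¬`, `∨`, `□`. -/
inductive MForm (α : Type) : Type
  | var : α → MForm α
  | neg : MForm α → MForm α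
  | or : MForm α → MForm α → MForm α
  | box : MForm α → MForm α

namespace MForm

/-- Implication `φ ⊃ ψ` abbreviates `¬φ ∨ ψ`. -/
def imp {α : Type} (φ ψ : MForm α) : MForm α := or (neg φ) ψ

/-- Conjunction `φ ∧ ψ` abbreviates `¬(¬φ ∨ ¬ψ)`. -/
def and {α : Type} (φ ψ : MForm α) : MForm α := neg (or (neg φ) (neg ψ))

/-- Simultaneous substitution of formulas for the propositional variables. -/
def subst {α β : Type} (σ : α → MForm β) : MForm α → MForm β
  | var a => σ a
  | neg φ => neg (subst σ φ)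
  | or φ ψ => or (subst σ φ) (subst σ ψ)
  | box φ => box (subst σ φ)

/-- `e` is a Boolean truth assignment on modal formulas: it commutes with `¬` and `∨`
(variables and boxed formulas get arbitrary values). -/
def IsAssignment {α : Type} (e : MForm α → Prop) : Prop :=
  (∀ φ, e (neg φ) ↔ ¬ e φ) ∧ (∀ φ ψ, e (or φ ψ) ↔ (e φ ∨ e ψ))

/-- A modal formula is (an instance of) a propositional tautology. -/
def Taut {α : Type} (φ : MForm α) : Prop := ∀ e : MForm α → Prop, IsAssignment e → e φ

end MForm

/-- `Λ` is a normal modal logic (propositional variables indexed by `ℕ`). -/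
structure IsNormal (Λ : Set (MForm ℕ)) : Prop where
  taut : ∀ φ : MForm ℕ, φ.Taut → φ ∈ Λ
  axK : ∀ φ ψ : MForm ℕ, ((φ.imp ψ).box.imp (φ.box.imp ψ.box)) ∈ Λ
  mp : ∀ φ ψ : MForm ℕ, φ.imp ψ ∈ Λ → φ ∈ Λ → ψ ∈ Λ
  nec : ∀ φ : MForm ℕ, φ ∈ Λ → φ.box ∈ Λ
  subst : ∀ (σ : ℕ → MForm ℕ) (φ : MForm ℕ), φ ∈ Λ → φ.subst σ ∈ Λ

/-- Grzegorczyk's axiom `□(□(p ⊃ □p) ⊃ p) ⊃ p`. -/
def grzAxiom : MForm ℕ :=
  (((((MForm.var 0).imp (MForm.var 0).box).box).imp (MForm.var 0)).box).imp (MForm.var 0)

/-- `Grz`: the smallest normal modal logic containing Grzegorczyk's axiom. -/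
def Grz : Set (MForm ℕ) := {φ | ∀ Λ : Set (MForm ℕ), IsNormal Λ → grzAxiom ∈ Λ → φ ∈ Λ}

/-- For a modal formula `F(x,y)` (variables `x = 0`, `y = 1` in `Fin 2`) and modal formulas
`A B`, the formula `F(A,B)`. -/
def app (F : MForm (Fin 2)) (A B : MForm ℕ) : MForm ℕ :=
  F.subst (fun i => if i = 0 then A else B)

/-- The translation `t_F`, for the assignment `a ↦ p a` of propositional variables to
name variables. -/
def trans (F : MForm (Fin 2)) (p : ℕ → ℕ) : LForm → MForm ℕ
  | .eps a b => app F (.var (p a)) (.var (p b))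
  | .neg φ => (trans F p φ).neg
  | .or φ ψ => (trans F p φ).or (trans F p ψ)

/-! ### Soundness -/

/-- The formula `F(x,y) = x ∧ □(□x ⊃ □y) ∧ (y ⊃ □(□y ⊃ □x))`. -/
def F0 : MForm (Fin 2) :=
  (MForm.var 0).and
    (((((MForm.var 0).box).imp ((MForm.var 1).box)).box).and
      ((MForm.var 1).imp ((((MForm.var 1).box).imp ((MForm.var 0).box)).box)))

theorem app_F0 (A B : MForm ℕ) :
    app F0 A B = A.and (((A.box.imp B.box).box).and (B.imp ((B.box.imp A.box).box))) := by
  simp [app, F0, MForm.subst, MForm.and, MForm.imp]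

theorem assign_imp {α : Type} {e : MForm α → Prop} (he : MForm.IsAssignment e)
    (φ ψ : MForm α) : e (φ.imp ψ) ↔ (e φ → e ψ) := by
  unfold MForm.imp
  rw [he.2, he.1]
  tauto

theorem assign_and {α : Type} {e : MForm α → Prop} (he : MForm.IsAssignment e)
    (φ ψ : MForm α) : e (φ.and ψ) ↔ (e φ ∧ e ψ) := by
  unfold MForm.and
  rw [he.1, he.2, he.1, he.1]
  tauto

theorem box_trans {Λ : Set (MForm ℕ)} (h : IsNormal Λ) (A B C : MForm ℕ) :
    (A.imp B).box.imp ((B.imp C).box.imp (A.imp C).box) ∈ Λ := by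
  have h1 : (A.imp B).imp ((B.imp C).imp (A.imp C)) ∈ Λ := by
    apply h.taut
    intro e he
    simp only [assign_imp he]
    tauto
  have h2 := h.mp _ _ (h.axK _ _) (h.nec _ h1)
  have h3 := h.axK (B.imp C) (A.imp C)
  refine h.mp _ _ (h.mp _ _ (h.taut (((A.imp B).box.imp (((B.imp C).imp (A.imp C)).box)).imp
    ((((B.imp C).imp (A.imp C)).box.imp ((B.imp C).box.imp (A.imp C).box)).imp
    ((A.imp B).box.imp ((B.imp C).box.imp (A.imp C).box)))) ?_) h2) h3
  intro e he
  simp only [assign_imp he]
  tauto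

theorem sound {Λ : Set (MForm ℕ)} (h : IsNormal Λ) (p : ℕ → ℕ) (φ : LForm) (hφ : L1 φ) :
    trans F0 p φ ∈ Λ := by
  induction hφ with
  | taut φ hφ =>
    apply h.taut
    intro e he
    exact hφ (fun ψ => e (trans F0 p ψ)) ⟨fun ψ => he.1 _, fun ψ χ => he.2 _ _⟩
  | ax1 a b =>
    show ((app F0 _ _).neg).or (app F0 _ _) ∈ Λ
    rw [app_F0, app_F0]
    have h1 : (((MForm.var (p a)).box.imp (MForm.var (p a)).box)).box ∈ Λ := by
      apply h.nec
      apply h.taut
      intro e he
      simp only [assign_imp he]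
      tauto
    refine h.mp _ _ (h.taut _ ?_) h1
    intro e he
    rw [assign_imp he, he.2, he.1]
    simp only [assign_imp he, assign_and he]
    tauto
  | ax2 a b c =>
    show ((((app F0 _ _).neg).or ((app F0 _ _).neg)).neg.neg).or (app F0 _ _) ∈ Λ
    rw [app_F0, app_F0, app_F0]
    have h1 := box_trans h (MForm.var (p a)).box (MForm.var (p b)).box (MForm.var (p c)).box
    have h2 := box_trans h (MForm.var (p c)).box (MForm.var (p b)).box (MForm.var (p a)).box
    refine h.mp _ _ (h.mp _ _ (h.taut _ ?_) h1) h2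
    intro e he
    simp only [assign_imp he, assign_and he, he.2, he.1]
    tauto
  | ax3 a b c =>
    show ((((app F0 _ _).neg).or ((app F0 _ _).neg)).neg.neg).or (app F0 _ _) ∈ Λ
    rw [app_F0, app_F0, app_F0]
    apply h.taut
    intro e he
    simp only [assign_imp he, assign_and he, he.2, he.1]
    tauto
  | mp φ ψ _ _ ih1 ih2 => exact h.mp _ _ ih1 ih2

/-! ### Kripke semantics on the reflexive fan -/

/-- The fan: `none` is the root, `some i` are the leaves; reflexive, root below everything. -/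
def R (u w : Option (Option ℕ)) : Prop := u = none ∨ u = w

/-- Kripke satisfaction on the fan. -/
def Sat (V : ℕ → Option (Option ℕ) → Prop) : Option (Option ℕ) → MForm ℕ → Prop
  | w, .var a => V a w
  | w, .neg φ => ¬ Sat V w φ
  | w, .or φ ψ => Sat V w φ ∨ Sat V w ψ
  | w, .box φ => ∀ u, R w u → Sat V u φ

/-- The logic of the fan. -/
def fanLogic : Set (MForm ℕ) := {φ | ∀ V w, Sat V w φ}

theorem sat_assign (V : ℕ → Option (Option ℕ) → Prop) (w : Option (Option ℕ)) :
    MForm.IsAssignment (Sat V w) :=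
  ⟨fun _ => Iff.rfl, fun _ _ => Iff.rfl⟩

theorem sat_subst (V : ℕ → Option (Option ℕ) → Prop) (σ : ℕ → MForm ℕ) (φ : MForm ℕ) :
    ∀ w, Sat V w (φ.subst σ) ↔ Sat (fun a u => Sat V u (σ a)) w φ := by
  induction φ with
  | var a => intro w; rfl
  | neg φ ih => intro w; simp only [MForm.subst, Sat, ih]
  | or φ ψ ih1 ih2 => intro w; simp only [MForm.subst, Sat, ih1, ih2]
  | box φ ih => intro w; simp only [MForm.subst, Sat, ih]

theorem fanLogic_normal : IsNormal fanLogic where
  taut φ h V w := h _ (sat_assign V w)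
  axK φ ψ V w := by
    rw [assign_imp (sat_assign V w), assign_imp (sat_assign V w)]
    intro h1 h2 u hu
    exact (assign_imp (sat_assign V u) φ ψ).1 (h1 u hu) (h2 u hu)
  mp φ ψ h1 h2 V w := (assign_imp (sat_assign V w) φ ψ).1 (h1 V w) (h2 V w)
  nec φ h V w u _ := h V u
  subst σ φ h V w := by
    rw [sat_subst]
    exact h _ w

theorem grz_mem_fanLogic : grzAxiom ∈ fanLogic := by
  intro V w
  unfold grzAxiom
  rw [assign_imp (sat_assign V w)]
  intro h
  -- at a leaf, `□ψ` is equivalent to `ψ`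
  have leaf : ∀ i : Option ℕ, (∀ u, R w u → u = some i → V 0 (some i)) := by
    intro i u hu hui
    subst hui
    have h1 := h (some i) hu
    rw [assign_imp (sat_assign V (some i))] at h1
    apply h1
    intro u hu'
    rw [assign_imp (sat_assign V u)]
    intro h2 u' hu''
    rcases hu' with hu' | hu'
    · exact absurd hu' (by simp)
    · subst hu'
      rcases hu'' with hu'' | hu''
      · exact absurd hu'' (by simp)
      · subst hu''
        exact h2
  rcases w with _ | i
  · -- the root
    have h1 := h none (Or.inl rfl)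
    rw [assign_imp (sat_assign V none)] at h1
    by_contra hcon
    apply hcon
    apply h1
    intro u _
    rw [assign_imp (sat_assign V u)]
    intro h2 u' hu'
    rcases u' with _ | i
    · rcases hu' with hu' | hu'
      · subst hu'; exact h2
      · subst hu'; exact h2
    · exact leaf i (some i) (Or.inl rfl) rfl
  · exact leaf i (some i) (Or.inr rfl) rfl

/-! ### Completeness of `L1` -/

/-- A relation on names satisfying the three axioms. -/
structure IsModel (v : ℕ → ℕ → Prop) : Prop where
  ax1 : ∀ a b, v a b → v a a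
  ax2 : ∀ a b c, v a b → v b c → v a c
  ax3 : ∀ a b c, v a b → v b c → v b a

/-- Truth of an `L1`-formula under a relation. -/
def LEval (v : ℕ → ℕ → Prop) : LForm → Prop
  | .eps a b => v a b
  | .neg φ => ¬ LEval v φ
  | .or φ ψ => LEval v φ ∨ LEval v ψ

theorem lassign_imp {e : LForm → Prop} (he : LForm.IsAssignment e)
    (φ ψ : LForm) : e (φ.imp ψ) ↔ (e φ → e ψ) := by
  unfold LForm.imp
  rw [he.2, he.1]
  tauto

theorem lassign_and {e : LForm → Prop} (he : LForm.IsAssignment e)
    (φ ψ : LForm) : e (φ.and ψ) ↔ (e φ ∧ e ψ) := by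
  unfold LForm.and
  rw [he.1, he.2, he.1, he.1]
  tauto

/-- A strict bound for the names occurring in a formula. -/
def bound : LForm → ℕ
  | .eps a b => max a b + 1
  | .neg φ => bound φ
  | .or φ ψ => max (bound φ) (bound ψ)

theorem eval_agree {e : LForm → Prop} (he : LForm.IsAssignment e) (n : ℕ) (φ : LForm) :
    bound φ ≤ n → (LEval (fun a b => a < n ∧ b < n ∧ e (.eps a b)) φ ↔ e φ) := by
  induction φ with
  | eps a b =>
    intro h
    have h' : max a b < n := h
    have ha : a < n := lt_of_le_of_lt (le_max_left a b) h'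
    have hb : b < n := lt_of_le_of_lt (le_max_right a b) h'
    simp [LEval, ha, hb]
  | neg φ ih =>
    intro h
    simp only [LEval, he.1, ih h]
  | or φ ψ ih1 ih2 =>
    intro h
    have h1 : bound φ ≤ n := le_trans (le_max_left _ _) h
    have h2 : bound ψ ≤ n := le_trans (le_max_right _ _) h
    simp only [LEval, he.2, ih1 h1, ih2 h2]

theorem deriv_of_list (Γ : List LForm) :
    ∀ φ : LForm, (∀ γ ∈ Γ, L1 γ) →
      (∀ e : LForm → Prop, LForm.IsAssignment e → (∀ γ ∈ Γ, e γ) → e φ) → L1 φ := by
  induction Γ with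
  | nil =>
    intro φ _ h
    exact L1.taut φ (fun e he => h e he (by simp))
  | cons γ Γ ih =>
    intro φ hΓ h
    have h1 : L1 (γ.imp φ) := by
      apply ih
      · intro γ' hγ'
        exact hΓ γ' (List.mem_cons_of_mem _ hγ')
      · intro e he hall
        rw [lassign_imp he]
        intro hγ
        apply h e he
        intro γ' hγ'
        rcases List.mem_cons.1 hγ' with h2 | h2
        · rw [h2]; exact hγ
        · exact hall γ' h2
    exact L1.mp _ _ h1 (hΓ γ (by simp))

/-- All axiom instances with names `< n`. -/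
def instances (n : ℕ) : List LForm :=
  (List.range n).flatMap fun a => (List.range n).flatMap fun b => (List.range n).flatMap fun c =>
    [(LForm.eps a b).imp (LForm.eps a a),
     ((LForm.eps a b).and (LForm.eps b c)).imp (LForm.eps a c),
     ((LForm.eps a b).and (LForm.eps b c)).imp (LForm.eps b a)]

theorem mem_instances (n : ℕ) (γ : LForm) :
    γ ∈ instances n ↔ ∃ a < n, ∃ b < n, ∃ c < n,
      γ = (LForm.eps a b).imp (LForm.eps a a) ∨
      γ = ((LForm.eps a b).and (LForm.eps b c)).imp (LForm.eps a c) ∨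
      γ = ((LForm.eps a b).and (LForm.eps b c)).imp (LForm.eps b a) := by
  simp [instances]

theorem exists_model (φ : LForm) (hφ : ¬ L1 φ) : ∃ v, IsModel v ∧ ¬ LEval v φ := by
  classical
  set n := bound φ with hn
  have h : ¬ ∀ e : LForm → Prop, LForm.IsAssignment e → (∀ γ ∈ instances n, e γ) → e φ := by
    intro hall
    apply hφ
    apply deriv_of_list (instances n) φ _ hall
    intro γ hγ
    rw [mem_instances] at hγ
    obtain ⟨a, _, b, _, c, _, h | h | h⟩ := hγ
    · rw [h]; exact L1.ax1 a b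
    · rw [h]; exact L1.ax2 a b c
    · rw [h]; exact L1.ax3 a b c
  push Not at h
  obtain ⟨e, he, hinst, hne⟩ := h
  refine ⟨fun a b => a < n ∧ b < n ∧ e (.eps a b), ⟨?_, ?_, ?_⟩, ?_⟩
  · rintro a b ⟨ha, hb, h⟩
    refine ⟨ha, ha, ?_⟩
    have := hinst _ ((mem_instances n _).2 ⟨a, ha, b, hb, a, ha, Or.inl rfl⟩)
    rw [lassign_imp he] at this
    exact this h
  · rintro a b c ⟨ha, hb, h⟩ ⟨_, hc, h'⟩
    refine ⟨ha, hc, ?_⟩
    have := hinst _ ((mem_instances n _).2 ⟨a, ha, b, hb, c, hc, Or.inr (Or.inl rfl)⟩)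
    rw [lassign_imp he, lassign_and he] at this
    exact this ⟨h, h'⟩
  · rintro a b c ⟨ha, hb, h⟩ ⟨_, hc, h'⟩
    refine ⟨hb, ha, ?_⟩
    have := hinst _ ((mem_instances n _).2 ⟨a, ha, b, hb, c, hc, Or.inr (Or.inr rfl)⟩)
    rw [lassign_imp he, lassign_and he] at this
    exact this ⟨h, h'⟩
  · rw [eval_agree he n φ le_rfl]
    exact hne

/-! ### Faithfulness -/

/-- The valuation on the fan coming from a relation `v`. -/
def val (p : ℕ → ℕ) (v : ℕ → ℕ → Prop) (q : ℕ) : Option (Option ℕ) → Prop
  | none => ∃ a, p a = q ∧ v a a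
  | some none => False
  | some (some c) => ∃ a, p a = q ∧ v c a

theorem sat_F0 (p : ℕ → ℕ) (hp : Function.Injective p) (v : ℕ → ℕ → Prop) (hv : IsModel v)
    (a b : ℕ) : Sat (val p v) none (app F0 (.var (p a)) (.var (p b))) ↔ v a b := by
  have hroot : ∀ a, Sat (val p v) none (.var (p a)) ↔ v a a := by
    intro a
    constructor
    · rintro ⟨a', ha', h⟩
      rw [hp ha'] at h
      exact h
    · intro h
      exact ⟨a, rfl, h⟩
  have hleaf : ∀ a c, Sat (val p v) (some (some c)) (.var (p a)) ↔ v c a := by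
    intro a c
    constructor
    · rintro ⟨a', ha', h⟩
      rw [hp ha'] at h
      exact h
    · intro h
      exact ⟨a, rfl, h⟩
  have hbroot : ∀ a, ¬ Sat (val p v) none (.box (.var (p a))) := by
    intro a h
    exact h (some none) (Or.inl rfl)
  have hbnone : ∀ a, ¬ Sat (val p v) (some none) (.box (.var (p a))) := by
    intro a h
    exact h (some none) (Or.inr rfl)
  have hbleaf : ∀ a c, Sat (val p v) (some (some c)) (.box (.var (p a))) ↔ v c a := by
    intro a c
    rw [← hleaf a c]
    constructor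
    · intro h
      exact h _ (Or.inr rfl)
    · intro h u hu
      rcases hu with hu | hu
      · exact absurd hu (by simp)
      · subst hu; exact h
  have key : ∀ a b, Sat (val p v) none
      (((MForm.var (p a)).box.imp (MForm.var (p b)).box).box) ↔ ∀ c, v c a → v c b := by
    intro a b
    constructor
    · intro h c hc
      have := h (some (some c)) (Or.inl rfl)
      rw [assign_imp (sat_assign _ _), hbleaf, hbleaf] at this
      exact this hc
    · intro h u _
      rw [assign_imp (sat_assign _ _)]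
      rcases u with _ | _ | c
      · intro h'; exact absurd h' (hbroot a)
      · intro h'; exact absurd h' (hbnone a)
      · rw [hbleaf, hbleaf]; exact h c
  rw [app_F0, assign_and (sat_assign _ _), assign_and (sat_assign _ _),
    assign_imp (sat_assign _ _), key, key, hroot, hroot]
  constructor
  · rintro ⟨h1, h2, _⟩
    exact h2 a h1
  · intro h
    refine ⟨hv.ax1 a b h, ?_, ?_⟩
    · intro c hc
      exact hv.ax2 c a b hc h
    · intro hb c hc
      exact hv.ax2 c b a hc (hv.ax3 a b b h hb)

theorem sat_trans (p : ℕ → ℕ) (hp : Function.Injective p) (v : ℕ → ℕ → Prop) (hv : IsModel v)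
    (φ : LForm) : Sat (val p v) none (trans F0 p φ) ↔ LEval v φ := by
  induction φ with
  | eps a b => exact sat_F0 p hp v hv a b
  | neg φ ih => simp only [trans, Sat, LEval, ih]
  | or φ ψ ih1 ih2 => simp only [trans, Sat, LEval, ih1, ih2]

/-- There is a modal formula `F(x,y)` in two propositional variables whose translation `t_F`
embeds `L1` in Grzegorczyk's logic `Grz` (for every injective assignment of propositional
variables to name variables). -/
theorem result : ∃ F : MForm (Fin 2), ∀ p : ℕ → ℕ, Function.Injective p →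
    ∀ φ : LForm, L1 φ ↔ trans F p φ ∈ Grz := by
  refine ⟨F0, fun p hp φ => ⟨fun h Λ hΛ _ => sound hΛ p φ h, fun h => ?_⟩⟩
  by_contra hcon
  obtain ⟨v, hv, hne⟩ := exists_model φ hcon
  apply hne
  rw [← sat_trans p hp v hv]
  exact h fanLogic fanLogic_normal grz_mem_fanLogic _ _

end Pool.Agent.Results.MP_36ff06_lc.GrzEmbedding
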